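import Mathlib

set_option autoImplicit false

/-!
# Riesz bases: coefficient maps
-/

namespace Pool.Agent.R243.BLT

open scoped ENNReal NNReal
open Filter Topology

variable {H : Type*} [NormedAddCommGroup H] [InnerProductSpace ℂ H] [CompleteSpace H]
variable {G : Type*}

/-- the Hilbert space of square summable families -/
noncomputable abbrev L2 (G : Type*) := lp (fun _ : G => ℂ) 2

/-- Bessel inequality from the upper Riesz bound -/
theorem bessel {e : G → H} {B : ℝ} (hB : 0 < B)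
    (hR : ∀ (s : Finset G) (a : G → ℂ), ‖∑ k ∈ s, a k • e k‖ ^ 2 ≤ B * ∑ k ∈ s, ‖a k‖ ^ 2)
    (f : H) (s : Finset G) : ∑ k ∈ s, ‖(inner ℂ (e k) f : ℂ)‖ ^ 2 ≤ B * ‖f‖ ^ 2 := by
  set S : ℝ := ∑ k ∈ s, ‖(inner ℂ (e k) f : ℂ)‖ ^ 2 with hS
  have hS0 : 0 ≤ S := Finset.sum_nonneg fun _ _ => by positivity
  have h1 := hR s (fun k => (inner ℂ (e k) f : ℂ))
  set v : H := ∑ k ∈ s, (inner ℂ (e k) f : ℂ) • e k with hv
  have h2 : (inner ℂ v f : ℂ) = (S : ℂ) := by
    rw [hv, sum_inner, hS]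
    push_cast
    refine Finset.sum_congr rfl fun k _ => ?_
    rw [inner_smul_left]
    rw [mul_comm, Complex.mul_conj, Complex.normSq_eq_norm_sq]
    push_cast
    rfl
  have h3 : S ≤ ‖v‖ * ‖f‖ := by
    have h := norm_inner_le_norm (𝕜 := ℂ) v f
    rw [h2, Complex.norm_real, Real.norm_of_nonneg hS0] at h
    exact h
  have h4 : S ^ 2 ≤ B * S * ‖f‖ ^ 2 := by
    calc S ^ 2 ≤ (‖v‖ * ‖f‖) ^ 2 := by gcongr
      _ = ‖v‖ ^ 2 * ‖f‖ ^ 2 := by ring
      _ ≤ B * S * ‖f‖ ^ 2 := by gcongr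
  rcases hS0.eq_or_lt with h0 | h0
  · rw [← h0]; positivity
  · have : S * S ≤ S * (B * ‖f‖ ^ 2) := by nlinarith
    exact le_of_mul_le_mul_left this h0

/-- analysis operator -/
theorem exists_analysis {e : G → H} {B : ℝ} (hB : 0 < B)
    (hR : ∀ (s : Finset G) (a : G → ℂ), ‖∑ k ∈ s, a k • e k‖ ^ 2 ≤ B * ∑ k ∈ s, ‖a k‖ ^ 2) :
    ∃ C : H →L[ℂ] L2 G, ∀ f k, C f k = inner ℂ (e k) f := by
  have hmem : ∀ f : H, Memℓp (fun k => (inner ℂ (e k) f : ℂ)) 2 := by
    intro f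
    rw [memℓp_gen_iff (by norm_num)]
    simp only [ENNReal.toReal_ofNat, Real.rpow_two]
    exact summable_of_sum_le (fun _ => by positivity) (fun s => bessel hB hR f s)
  let C₀ : H →ₗ[ℂ] L2 G :=
    { toFun := fun f => ⟨fun k => (inner ℂ (e k) f : ℂ), hmem f⟩
      map_add' := fun f g => by
        ext k
        exact inner_add_right _ _ _
      map_smul' := fun c f => by
        ext k
        exact inner_smul_right _ _ _ }
  refine ⟨C₀.mkContinuous (Real.sqrt B) ?_, fun f k => rfl⟩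
  intro f
  have h1 : ‖C₀ f‖ ^ 2 ≤ B * ‖f‖ ^ 2 := by
    have h2 := lp.norm_rpow_eq_tsum (p := 2) (by norm_num) (C₀ f)
    simp only [ENNReal.toReal_ofNat, Real.rpow_two] at h2
    rw [h2]
    exact Real.tsum_le_of_sum_le (fun _ => by positivity) (fun s => bessel hB hR f s)
  have h3 : ‖C₀ f‖ = Real.sqrt (‖C₀ f‖ ^ 2) := (Real.sqrt_sq (norm_nonneg _)).symm
  rw [h3]
  calc Real.sqrt (‖C₀ f‖ ^ 2) ≤ Real.sqrt (B * ‖f‖ ^ 2) := Real.sqrt_le_sqrt h1
    _ = Real.sqrt B * ‖f‖ := by rw [Real.sqrt_mul hB.le, Real.sqrt_sq (norm_nonneg _)]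

/-- the synthesis operator of a Riesz basis is an isomorphism -/
theorem exists_synthesis {e : G → H} {A B : ℝ} (hA : 0 < A) (hB : 0 < B)
    (hR : ∀ (s : Finset G) (a : G → ℂ), A * ∑ k ∈ s, ‖a k‖ ^ 2 ≤ ‖∑ k ∈ s, a k • e k‖ ^ 2 ∧
      ‖∑ k ∈ s, a k • e k‖ ^ 2 ≤ B * ∑ k ∈ s, ‖a k‖ ^ 2)
    (hc : ∀ h : H, (∀ k, (inner ℂ h (e k) : ℂ) = 0) → h = 0) :
    ∃ (C : H →L[ℂ] L2 G) (E : L2 G ≃L[ℂ] H),
      (∀ f k, C f k = inner ℂ (e k) f) ∧
      (∀ c f, (inner ℂ (E c) f : ℂ) = inner ℂ c (C f)) ∧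
      (∀ k, (E.symm (e k)) k = 1) ∧ (∀ k l, k ≠ l → (E.symm (e l)) k = 0) := by
  classical
  obtain ⟨C, hC⟩ := exists_analysis hB (fun s a => (hR s a).2)
  set T : L2 G →L[ℂ] H := ContinuousLinearMap.adjoint C with hT
  have hTi : ∀ c f, (inner ℂ (T c) f : ℂ) = inner ℂ c (C f) := fun c f =>
    ContinuousLinearMap.adjoint_inner_left C f c
  have hTe : ∀ k (z : ℂ), T (lp.single 2 k z) = z • e k := by
    intro k z
    refine ext_inner_right ℂ fun f => ?_
    rw [hTi, lp.inner_single_left, hC, inner_smul_left]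
    simp [RCLike.inner_apply, mul_comm]
  have hlow : ∀ c : L2 G, A * ‖c‖ ^ 2 ≤ ‖T c‖ ^ 2 := by
    intro c
    have h1 : HasSum (fun k => lp.single 2 k (c k)) c := lp.hasSum_single (by norm_num) c
    have h2 : HasSum (fun k => c k • e k) (T c) := by
      have := h1.mapL T
      simpa [hTe] using this
    have h3 : HasSum (fun k => ‖c k‖ ^ 2) (‖c‖ ^ 2) := by
      have := lp.hasSum_norm (p := 2) (by norm_num) c
      simpa using this
    have h4 : Tendsto (fun s : Finset G => A * ∑ k ∈ s, ‖c k‖ ^ 2) atTop (𝓝 (A * ‖c‖ ^ 2)) :=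
      h3.const_mul A
    have h5 : Tendsto (fun s : Finset G => ‖∑ k ∈ s, c k • e k‖ ^ 2) atTop (𝓝 (‖T c‖ ^ 2)) :=
      (h2.norm).pow 2
    exact le_of_tendsto_of_tendsto' h4 h5 fun s => (hR s c).1
  have hanti : ∃ K : ℝ≥0, AntilipschitzWith K T := by
    refine ⟨(⟨(Real.sqrt A)⁻¹, by positivity⟩ : ℝ≥0), ?_⟩
    refine AddMonoidHomClass.antilipschitz_of_bound T fun c => ?_
    have h1 := hlow c
    have h2 : Real.sqrt A * ‖c‖ ≤ ‖T c‖ := by
      apply abs_le_of_sq_le_sq' _ (norm_nonneg _) |>.2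
      rw [mul_pow, Real.sq_sqrt hA.le]
      exact h1
    have h3 : 0 < Real.sqrt A := Real.sqrt_pos.2 hA
    change ‖c‖ ≤ (Real.sqrt A)⁻¹ * ‖T c‖
    rw [inv_mul_eq_div, le_div_iff₀ h3]
    linarith
  obtain ⟨K, hK⟩ := hanti
  have hinj : Function.Injective T := hK.injective
  have hclosed : IsClosed (T.range : Set H) := by
    have := hK.isClosed_range T.uniformContinuous
    exact this
  have hsurj : T.range = ⊤ := by
    have hco : IsComplete ((T.range : Submodule ℂ H) : Set H) := hclosed.isComplete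
    have : CompleteSpace (T.range : Submodule ℂ H) := completeSpace_coe_iff_isComplete.2 hco
    rw [← Submodule.orthogonal_eq_bot_iff, Submodule.eq_bot_iff]
    intro h hh
    apply hc
    intro k
    rw [Submodule.mem_orthogonal'] at hh
    apply hh
    exact ⟨lp.single 2 k 1, by rw [ContinuousLinearMap.coe_coe, hTe, one_smul]⟩
  refine ⟨C, ContinuousLinearEquiv.ofBijective T (LinearMap.ker_eq_bot.2 hinj) hsurj, hC,
    fun c f => hTi c f, ?_⟩
  have h1 : ∀ l, (ContinuousLinearEquiv.ofBijective T (LinearMap.ker_eq_bot.2 hinj) hsurj).symm (e l) =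
      lp.single 2 l (1 : ℂ) := by
    intro l
    rw [ContinuousLinearEquiv.symm_apply_eq]
    rw [ContinuousLinearEquiv.coeFn_ofBijective, hTe, one_smul]
  refine ⟨fun k => ?_, fun k l hkl => ?_⟩
  · rw [h1]; simp
  · rw [h1]; simp [hkl]

end Pool.Agent.R243.BLT
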