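import Mathlib
import Pool.Agent.R243.BLT.Riesz

set_option autoImplicit false

/-!
# Balian-Low theorem: the abstract core
-/

namespace Pool.Agent.R243.BLT

open scoped ENNReal NNReal ComplexConjugate
open Filter Topology

variable {H : Type*} [NormedAddCommGroup H] [InnerProductSpace ℂ H]
variable {G : Type*}

theorem norm_sq_tsum (x : L2 G) : ‖x‖ ^ 2 = ∑' k, ‖x k‖ ^ 2 := by
  have h2 := lp.norm_rpow_eq_tsum (p := 2) (by norm_num) x
  simpa only [ENNReal.toReal_ofNat, Real.rpow_two] using h2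

theorem summable_sq (x : L2 G) : Summable fun k => ‖x k‖ ^ 2 := by
  have := (lp.hasSum_norm (p := 2) (by norm_num) x).summable
  simpa using this

theorem exists_mul (m : G → ℂ) (hm : ∀ k, ‖m k‖ ≤ 2) (x : L2 G) :
    ∃ y : L2 G, (∀ k, y k = m k * x k) ∧ ‖y‖ ≤ 2 * ‖x‖ := by
  have hle : ∀ k, ‖m k * x k‖ ^ 2 ≤ 4 * ‖x k‖ ^ 2 := by
    intro k
    rw [norm_mul, mul_pow]
    have h := hm k
    have h2 : ‖m k‖ ^ 2 ≤ 2 ^ 2 := pow_le_pow_left₀ (norm_nonneg _) h 2
    nlinarith [sq_nonneg ‖x k‖]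
  have hs : Summable fun k => ‖m k * x k‖ ^ 2 :=
    Summable.of_nonneg_of_le (fun _ => by positivity) hle ((summable_sq x).mul_left 4)
  have hmem : Memℓp (fun k => m k * x k) 2 := by
    rw [memℓp_gen_iff (by norm_num)]
    simpa only [ENNReal.toReal_ofNat, Real.rpow_two] using hs
  refine ⟨⟨fun k => m k * x k, hmem⟩, fun k => rfl, ?_⟩
  set y : L2 G := ⟨fun k => m k * x k, hmem⟩ with hy
  have h1 : ‖y‖ ^ 2 ≤ (2 * ‖x‖) ^ 2 := by
    rw [norm_sq_tsum y, mul_pow, norm_sq_tsum x, ← tsum_mul_left]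
    refine Summable.tsum_le_tsum (fun k => ?_) hs ((summable_sq x).mul_left _)
    have := hle k
    change ‖m k * x k‖ ^ 2 ≤ _
    linarith
  exact (abs_le_of_sq_le_sq' h1 (by positivity)).2

/-- **The abstract Balian-Low theorem.** -/
theorem core [CompleteSpace H] [AddCommGroup G]
    (U : G → H ≃ₗᵢ[ℂ] H) (c : G → G → ℂ) (hc : ∀ k l, ‖c k l‖ = 1) (hc0 : ∀ k, c k 0 = 1)
    (hU : ∀ k l x, U k (U l x) = c k l • U (k + l) x) (hU0 : ∀ x, U 0 x = x)
    (M N : ℝ → H ≃ₗᵢ[ℂ] H) (μ ν : ℝ → G → ℂ)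
    (hμ : ∀ t k, ‖μ t k‖ = 1) (hν : ∀ t k, ‖ν t k‖ = 1)
    (hμ0 : ∀ t, μ t 0 = 1) (hν0 : ∀ t, ν t 0 = 1)
    (hM : ∀ t k x, (M t).symm (U k x) = μ t k • U k ((M t).symm x))
    (hN : ∀ t k x, (N t).symm (U k x) = ν t k • U k ((N t).symm x))
    (hμl : ∀ k, Tendsto (fun t => μ t k) (𝓝[≠] 0) (𝓝 1))
    (hνl : ∀ k, Tendsto (fun t => ν t k) (𝓝[≠] 0) (𝓝 1))
    (ω : ℝ → ℂ) (hω : ∀ t x, (N t).symm (M t x) = ω t • M t ((N t).symm x))
    (L : ℂ) (hL : L ≠ 0)
    (hωl : Tendsto (fun t : ℝ => (ω t - 1) / (t : ℂ) ^ 2) (𝓝[≠] 0) (𝓝 L))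
    (g Dg : H) (D : ℝ)
    (hMg : Tendsto (fun t : ℝ => ((t : ℂ)⁻¹) • (M t g - g)) (𝓝[≠] 0) (𝓝 Dg))
    (hNg : ∀ t : ℝ, ‖(N t).symm g - g‖ ≤ D * |t|)
    {A B : ℝ} (hA : 0 < A) (hB : 0 < B)
    (hR : ∀ (s : Finset G) (a : G → ℂ), A * ∑ k ∈ s, ‖a k‖ ^ 2 ≤ ‖∑ k ∈ s, a k • U k g‖ ^ 2 ∧
      ‖∑ k ∈ s, a k • U k g‖ ^ 2 ≤ B * ∑ k ∈ s, ‖a k‖ ^ 2)
    (hcomp : ∀ h : H, (∀ k, (inner ℂ h (U k g) : ℂ) = 0) → h = 0) : False := by
  classical
  obtain ⟨C, E, hC, hE, hE1, hE0⟩ := exists_synthesis (e := fun k => U k g) hA hB hR hcomp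
  simp only at hC hE1 hE0
  set S : H →L[ℂ] L2 G := (E.symm : H →L[ℂ] L2 G) with hS
  have hSE : ∀ f, S f = E.symm f := fun f => rfl
  set γ : H := ContinuousLinearMap.adjoint S (lp.single 2 0 1) with hγdef
  have hadj : ∀ k f, (inner ℂ (ContinuousLinearMap.adjoint S (lp.single 2 k 1)) f : ℂ) = (S f) k := by
    intro k f
    rw [ContinuousLinearMap.adjoint_inner_left, lp.inner_single_left]
    simp [RCLike.inner_apply]
  have hγ : ∀ f, (inner ℂ γ f : ℂ) = (S f) 0 := fun f => hadj 0 f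
  have hcc : ∀ k l, (starRingEnd ℂ) (c k l) * c k l = 1 := by
    intro k l
    rw [mul_comm, Complex.mul_conj, Complex.normSq_eq_norm_sq, hc]
    norm_num
  -- coefficient functionals
  have hcoef : ∀ k f, (inner ℂ (U k γ) f : ℂ) = (S f) k := by
    intro k
    have h0 : U k γ - ContinuousLinearMap.adjoint S (lp.single 2 k 1) = 0 := by
      apply hcomp
      intro l
      rw [inner_sub_left, hadj]
      have h1 : U l g = (starRingEnd ℂ) (c k (l - k)) • U k (U (l - k) g) := by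
        rw [hU, smul_smul, hcc, one_smul]
        congr 1
        congr 1
        abel
      have h2 : (inner ℂ (U k γ) (U l g) : ℂ) = (starRingEnd ℂ) (c k (l - k)) * (S (U (l - k) g)) 0 := by
        rw [h1, inner_smul_right, LinearIsometryEquiv.inner_map_map, hγ]
      rw [h2, hSE, hSE]
      by_cases hkl : k = l
      · subst hkl
        rw [hE1, sub_self, hc0, hE1]
        simp
      · rw [hE0 k l hkl, hE0 0 (l - k) (fun h => hkl (sub_eq_zero.1 h.symm).symm)]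
        simp
    intro f
    rw [← hadj k f]
    rw [sub_eq_zero.1 h0]
  have hg0 : U 0 g = g := hU0 g
  have hSg : ∀ k, k ≠ 0 → (S g) k = 0 := by
    intro k hk
    have := hE0 k 0 hk
    rwa [hg0] at this
  have hSg0 : (S g) 0 = 1 := by
    have := hE1 0
    rwa [hg0] at this
  have hinv : ∀ k x, x = (starRingEnd ℂ) (c k (-k)) • U k (U (-k) x) := by
    intro k x
    rw [hU, smul_smul, hcc, one_smul, add_neg_cancel, hU0]
  -- the two coefficient sequences
  have hα : ∀ t k, (S (M t g - g)) k =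
      (starRingEnd ℂ) (μ t k) * ((starRingEnd ℂ) (c k (-k)) *
        inner ℂ ((M t).symm γ - γ) (U (-k) g)) := by
    intro t k
    rw [← hcoef]
    have e1 : (inner ℂ (U k γ) (M t g - g) : ℂ) =
        inner ℂ ((M t).symm (U k γ)) g - inner ℂ (U k γ) g := by
      rw [inner_sub_right]
      congr 1
      have := LinearIsometryEquiv.inner_map_map (M t) ((M t).symm (U k γ)) g
      rw [← this, LinearIsometryEquiv.apply_symm_apply]
    have e2 : (inner ℂ ((M t).symm γ - γ) (U (-k) g) : ℂ) =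
        inner ℂ (U k ((M t).symm γ - γ)) (U k (U (-k) g)) := by
      rw [LinearIsometryEquiv.inner_map_map]
    have e3 : (starRingEnd ℂ) (c k (-k)) * (inner ℂ ((M t).symm γ - γ) (U (-k) g) : ℂ) =
        inner ℂ (U k ((M t).symm γ - γ)) g := by
      rw [e2, ← inner_smul_right, ← hinv]
    rw [e1, e3, hM, inner_smul_left, map_sub, inner_sub_left]
    by_cases hk : k = 0
    · subst hk
      rw [hμ0]; simp
    · rw [hcoef k g, hSg k hk]; ring
  have hβ : ∀ t k, (C (N t γ - γ)) k =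
      (starRingEnd ℂ) (ν t k) * ((starRingEnd ℂ) (c k (-k)) *
        inner ℂ ((N t).symm g - g) (U (-k) γ)) := by
    intro t k
    rw [hC]
    have e1 : (inner ℂ (U k g) (N t γ - γ) : ℂ) =
        inner ℂ ((N t).symm (U k g)) γ - inner ℂ (U k g) γ := by
      rw [inner_sub_right]
      congr 1
      have := LinearIsometryEquiv.inner_map_map (N t) ((N t).symm (U k g)) γ
      rw [← this, LinearIsometryEquiv.apply_symm_apply]
    have e2 : (inner ℂ ((N t).symm g - g) (U (-k) γ) : ℂ) =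
        inner ℂ (U k ((N t).symm g - g)) (U k (U (-k) γ)) := by
      rw [LinearIsometryEquiv.inner_map_map]
    have e3 : (starRingEnd ℂ) (c k (-k)) * (inner ℂ ((N t).symm g - g) (U (-k) γ) : ℂ) =
        inner ℂ (U k ((N t).symm g - g)) γ := by
      rw [e2, ← inner_smul_right, ← hinv]
    rw [e1, e3, hN, inner_smul_left, map_sub, inner_sub_left]
    by_cases hk : k = 0
    · subst hk
      rw [hν0]; simp
    · have h1 : (inner ℂ (U k g) γ : ℂ) = 0 := by
        rw [← inner_conj_symm, hγ, hSE, hE0 0 k (Ne.symm hk)]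
        simp
      rw [h1]; ring
  -- size of the second sequence
  have hβn : ∀ t, ‖C (N t γ - γ)‖ ≤ ‖S‖ * D * |t| := by
    intro t
    have h1 : ‖C (N t γ - γ)‖ ^ 2 = ‖S ((N t).symm g - g)‖ ^ 2 := by
      rw [norm_sq_tsum, norm_sq_tsum, ← (Equiv.neg G).tsum_eq (fun k => ‖(S ((N t).symm g - g)) k‖ ^ 2)]
      refine tsum_congr fun k => ?_
      rw [hβ, Equiv.neg_apply, ← hcoef, norm_mul, norm_mul, RCLike.norm_conj, RCLike.norm_conj,
        hν, hc, one_mul, one_mul, norm_inner_symm]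
    have h2 : ‖C (N t γ - γ)‖ = ‖S ((N t).symm g - g)‖ := by
      have := congrArg Real.sqrt h1
      rwa [Real.sqrt_sq (norm_nonneg _), Real.sqrt_sq (norm_nonneg _)] at this
    rw [h2]
    calc ‖S ((N t).symm g - g)‖ ≤ ‖S‖ * ‖(N t).symm g - g‖ := S.le_opNorm _
      _ ≤ ‖S‖ * (D * |t|) := by
          apply mul_le_mul_of_nonneg_left (hNg t) (norm_nonneg _)
      _ = _ := by ring
  -- the pairing in terms of coefficients
  have hpair : ∀ x y, (inner ℂ x y : ℂ) = inner ℂ (S x) (C y) := by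
    intro x y
    rw [← hE (S x) y]
    congr 1
    rw [hSE, ContinuousLinearEquiv.apply_symm_apply]
  set m : ℝ → G → ℂ := fun t k => 1 - μ t k * (starRingEnd ℂ) (ν t k) with hm
  have hm2 : ∀ t k, ‖m t k‖ ≤ 2 := by
    intro t k
    calc ‖m t k‖ ≤ ‖(1 : ℂ)‖ + ‖μ t k * (starRingEnd ℂ) (ν t k)‖ := norm_sub_le _ _
      _ = 2 := by rw [norm_mul, RCLike.norm_conj, hμ, hν]; norm_num
  have key : ∀ t : ℝ, ∀ y : L2 G, (∀ k, y k = m t k * (S (M t g - g)) k) →
      (starRingEnd ℂ) (ω t - 1) * inner ℂ (M t ((N t).symm g)) γ = inner ℂ y (C (N t γ - γ)) := by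
    intro t y hy
    have l1 : (inner ℂ (M t g - g) (N t γ - γ) : ℂ) -
        inner ℂ ((N t).symm g - g) ((M t).symm γ - γ) =
        (starRingEnd ℂ) (ω t - 1) * inner ℂ (M t ((N t).symm g)) γ := by
      have a1 : (inner ℂ (M t g - g) (N t γ) : ℂ) = inner ℂ ((N t).symm (M t g - g)) γ := by
        have := LinearIsometryEquiv.inner_map_map (N t) ((N t).symm (M t g - g)) γ
        rw [← this, LinearIsometryEquiv.apply_symm_apply]
      have a2 : (inner ℂ ((N t).symm g - g) ((M t).symm γ) : ℂ) =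
          inner ℂ (M t ((N t).symm g - g)) γ := by
        have := LinearIsometryEquiv.inner_map_map (M t) ((N t).symm g - g) ((M t).symm γ)
        rw [← this, LinearIsometryEquiv.apply_symm_apply]
      rw [inner_sub_right, inner_sub_right, a1, a2, ← inner_smul_left, sub_smul, one_smul, ← hω]
      simp only [map_sub, inner_sub_left]
      ring
    rw [← l1, hpair, hpair ((N t).symm g - g)]
    have s1 := lp.hasSum_inner (𝕜 := ℂ) (S (M t g - g)) (C (N t γ - γ))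
    have s2 := lp.hasSum_inner (𝕜 := ℂ) (S ((N t).symm g - g)) (C ((M t).symm γ - γ))
    have s2' := (Equiv.neg G).hasSum_iff.2 s2
    have s3 := s1.sub s2'
    have s4 := lp.hasSum_inner (𝕜 := ℂ) y (C (N t γ - γ))
    refine s3.unique ?_
    refine s4.congr_fun fun k => ?_
    simp only [Function.comp_apply, Equiv.neg_apply, RCLike.inner_apply]
    rw [hy k, hα, hβ, ← hcoef, hC, hm]
    simp only [map_mul, map_sub, map_one, Complex.conj_conj, inner_conj_symm]
    have q1 : μ t k * (starRingEnd ℂ) (μ t k) = 1 := by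
      rw [Complex.mul_conj, Complex.normSq_eq_norm_sq, hμ]; norm_num
    have q2 : ν t k * (starRingEnd ℂ) (ν t k) = 1 := by
      rw [Complex.mul_conj, Complex.normSq_eq_norm_sq, hν]; norm_num
    have q3 : (starRingEnd ℂ) (c k (-k)) * c k (-k) = 1 := hcc _ _
    set X := (inner ℂ (U (-k) g) ((M t).symm γ - γ) : ℂ)
    set Y := (inner ℂ ((N t).symm g - g) (U (-k) γ) : ℂ)
    linear_combination (X * Y * (μ t k * (starRingEnd ℂ) (μ t k)) * (ν t k * (starRingEnd ℂ) (ν t k)) ) * q3 + X * Y * (ν t k * (starRingEnd ℂ) (ν t k)) * q1 + X * Y * q2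
  -- choose the products
  choose y hy1 hy2 using fun (t : ℝ) (x : L2 G) => exists_mul (m t) (hm2 t) x
  have hmain : ∀ t : ℝ, t ≠ 0 → ‖(ω t - 1) / (t : ℂ) ^ 2‖ * ‖(inner ℂ (M t ((N t).symm g)) γ : ℂ)‖ ≤
      (2 * ‖S (((t : ℂ)⁻¹) • (M t g - g)) - S Dg‖ + ‖y t (S Dg)‖) * (‖S‖ * D) := by
    intro t ht
    have k1 := key t (y t (S (M t g - g))) (hy1 t _)
    have k2 : ‖ω t - 1‖ * ‖(inner ℂ (M t ((N t).symm g)) γ : ℂ)‖ ≤
        ‖y t (S (M t g - g))‖ * (‖S‖ * D * |t|) := by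
      have := congrArg norm k1
      rw [norm_mul, RCLike.norm_conj] at this
      rw [this]
      exact (norm_inner_le_norm _ _).trans (mul_le_mul_of_nonneg_left (hβn t) (norm_nonneg _))
    have k3 : y t (S (M t g - g)) = (t : ℂ) • (y t (S (((t : ℂ)⁻¹) • (M t g - g)) - S Dg) + y t (S Dg)) := by
      ext k
      simp only [lp.coeFn_smul, Pi.smul_apply, lp.coeFn_add, Pi.add_apply, hy1, smul_eq_mul,
        map_smul, lp.coeFn_sub, Pi.sub_apply]
      have : (t : ℂ) ≠ 0 := by exact_mod_cast ht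
      field_simp
      ring
    have k4 : ‖y t (S (M t g - g))‖ ≤ |t| * (2 * ‖S (((t : ℂ)⁻¹) • (M t g - g)) - S Dg‖ + ‖y t (S Dg)‖) := by
      rw [k3, norm_smul, Complex.norm_real, Real.norm_eq_abs]
      apply mul_le_mul_of_nonneg_left _ (abs_nonneg _)
      exact (norm_add_le _ _).trans (by gcongr; exact hy2 t _)
    have ht2 : 0 < |t| := abs_pos.2 ht
    have k5 : ‖(ω t - 1) / (t : ℂ) ^ 2‖ = ‖ω t - 1‖ / |t| ^ 2 := by
      rw [norm_div, norm_pow, Complex.norm_real, Real.norm_eq_abs]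
    have hSD : 0 ≤ ‖S‖ * D * |t| := (norm_nonneg _).trans (hβn t)
    rw [k5, div_mul_eq_mul_div, div_le_iff₀ (by positivity)]
    calc ‖ω t - 1‖ * ‖(inner ℂ (M t ((N t).symm g)) γ : ℂ)‖ ≤
          ‖y t (S (M t g - g))‖ * (‖S‖ * D * |t|) := k2
      _ ≤ (|t| * (2 * ‖S (((t : ℂ)⁻¹) • (M t g - g)) - S Dg‖ + ‖y t (S Dg)‖)) * (‖S‖ * D * |t|) := by
          exact mul_le_mul_of_nonneg_right k4 hSD
      _ = _ := by ring
  -- limits
  have lim1 : Tendsto (fun t : ℝ => ‖(ω t - 1) / (t : ℂ) ^ 2‖) (𝓝[≠] 0) (𝓝 ‖L‖) := hωl.norm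
  have lim2 : Tendsto (fun t : ℝ => M t ((N t).symm g)) (𝓝[≠] 0) (𝓝 g) := by
    rw [tendsto_iff_norm_sub_tendsto_zero]
    have hid : Tendsto (fun t : ℝ => |t|) (𝓝[≠] (0:ℝ)) (𝓝 0) := by
      have : Tendsto (fun t : ℝ => |t|) (𝓝 (0:ℝ)) (𝓝 |0|) := continuous_abs.tendsto 0
      rw [abs_zero] at this
      exact this.mono_left nhdsWithin_le_nhds
    have hMg0 : Tendsto (fun t : ℝ => ‖M t g - g‖) (𝓝[≠] 0) (𝓝 0) := by
      have h1 := hid.mul hMg.norm
      rw [zero_mul] at h1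
      refine h1.congr' ?_
      filter_upwards [self_mem_nhdsWithin] with t ht
      have ht' : t ≠ 0 := ht
      rw [norm_smul, norm_inv, Complex.norm_real, Real.norm_eq_abs, ← mul_assoc,
        mul_inv_cancel₀ (abs_ne_zero.2 ht'), one_mul]
    have hb : Tendsto (fun t : ℝ => D * |t| + ‖M t g - g‖) (𝓝[≠] 0) (𝓝 0) := by
      have := (hid.const_mul D).add hMg0
      simpa using this
    refine squeeze_zero (fun _ => norm_nonneg _) (fun t => ?_) hb
    have e : M t ((N t).symm g) - g = M t ((N t).symm g - g) + (M t g - g) := by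
      rw [map_sub]; abel
    rw [e]
    refine (norm_add_le _ _).trans ?_
    rw [LinearIsometryEquiv.norm_map]
    exact add_le_add_left (hNg t) _
  have lim3 : Tendsto (fun t : ℝ => ‖(inner ℂ (M t ((N t).symm g)) γ : ℂ)‖) (𝓝[≠] 0) (𝓝 1) := by
    have h1 : Tendsto (fun t : ℝ => (inner ℂ (M t ((N t).symm g)) γ : ℂ)) (𝓝[≠] 0)
        (𝓝 (inner ℂ g γ)) := lim2.inner tendsto_const_nhds
    have h2 : (inner ℂ g γ : ℂ) = 1 := by
      rw [← inner_conj_symm, hγ, hSg0]; simp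
    rw [h2] at h1
    simpa using h1.norm
  have lim4 : Tendsto (fun t : ℝ => ‖S (((t : ℂ)⁻¹) • (M t g - g)) - S Dg‖) (𝓝[≠] 0) (𝓝 0) := by
    rw [← tendsto_iff_norm_sub_tendsto_zero]
    exact (S.continuous.tendsto Dg).comp hMg
  have lim5 : Tendsto (fun t : ℝ => ‖y t (S Dg)‖) (𝓝[≠] 0) (𝓝 0) := by
    have h1 : Tendsto (fun t : ℝ => ‖y t (S Dg)‖ ^ 2) (𝓝[≠] 0) (𝓝 0) := by
      simp only [norm_sq_tsum, hy1]
      have h0 : (0 : ℝ) = ∑' k : G, (0 : ℝ) := by simp
      rw [h0]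
      refine tendsto_tsum_of_dominated_convergence (bound := fun k => 4 * ‖(S Dg) k‖ ^ 2)
        ((summable_sq _).mul_left 4) (fun k => ?_) (Eventually.of_forall fun t k => ?_)
      · have ha : Tendsto (fun t => m t k) (𝓝[≠] 0) (𝓝 0) := by
          have hb : Tendsto (fun t => (starRingEnd ℂ) (ν t k)) (𝓝[≠] 0) (𝓝 1) := by
            have := (Complex.continuous_conj.tendsto 1).comp (hνl k)
            simpa [Function.comp_def] using this
          have hc' := ((hμl k).mul hb).const_sub 1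
          simpa [hm] using hc'
        have hd : Tendsto (fun t => ‖m t k * (S Dg) k‖ ^ 2) (𝓝[≠] 0) (𝓝 (‖(0:ℂ) * (S Dg) k‖ ^ 2)) :=
          ((ha.mul_const _).norm).pow 2
        simpa using hd
      · have h2 := hm2 t k
        have h3 : ‖m t k‖ ^ 2 ≤ 2 ^ 2 := pow_le_pow_left₀ (norm_nonneg _) h2 2
        rw [Real.norm_of_nonneg (by positivity), norm_mul, mul_pow]
        nlinarith [sq_nonneg ‖(S Dg) k‖]
    have h2 := (Real.continuous_sqrt.tendsto 0).comp h1
    rw [Real.sqrt_zero] at h2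
    refine h2.congr fun t => ?_
    simp [Real.sqrt_sq (norm_nonneg _)]
  have limR : Tendsto (fun t : ℝ => (2 * ‖S (((t : ℂ)⁻¹) • (M t g - g)) - S Dg‖ + ‖y t (S Dg)‖) *
      (‖S‖ * D)) (𝓝[≠] 0) (𝓝 0) := by
    have := ((lim4.const_mul 2).add lim5).mul_const (‖S‖ * D)
    simpa using this
  have limL := lim1.mul lim3
  have hfin : ‖L‖ * 1 ≤ 0 := by
    refine le_of_tendsto_of_tendsto limL limR ?_
    filter_upwards [self_mem_nhdsWithin] with t ht
    exact hmain t ht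
  have : 0 < ‖L‖ := norm_pos_iff.2 hL
  linarith

end Pool.Agent.R243.BLT
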