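import Mathlib

set_option autoImplicit false

/-!
# Time-frequency shifts on `L²(ℝ^d)`
-/

namespace Pool.Agent.R243.BLT

open scoped ENNReal NNReal ComplexConjugate
open Filter Topology MeasureTheory

variable {d : ℕ}

/-- the Hilbert space `L²(ℝ^d)` -/
noncomputable abbrev HL (d : ℕ) := Lp ℂ 2 (volume : Measure (Fin d → ℝ))

/-- the character `x ↦ e^{2πi b·x}` -/
noncomputable def chr (b x : Fin d → ℝ) : ℂ :=
  Complex.exp (2 * (Real.pi : ℂ) * Complex.I * ((∑ j, b j * x j : ℝ) : ℂ))

theorem norm_chr (b x : Fin d → ℝ) : ‖chr b x‖ = 1 := by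
  unfold chr
  have : 2 * (Real.pi : ℂ) * Complex.I * ((∑ j, b j * x j : ℝ) : ℂ) =
      ((2 * Real.pi * ∑ j, b j * x j : ℝ) : ℂ) * Complex.I := by push_cast; ring
  rw [this, Complex.norm_exp_ofReal_mul_I]

theorem chr_add_left (b b' x : Fin d → ℝ) : chr (b + b') x = chr b x * chr b' x := by
  unfold chr
  rw [← Complex.exp_add]
  congr 1
  simp only [Pi.add_apply, add_mul, Finset.sum_add_distrib]
  push_cast
  ring

theorem chr_add_right (b x x' : Fin d → ℝ) : chr b (x + x') = chr b x * chr b x' := by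
  unfold chr
  rw [← Complex.exp_add]
  congr 1
  simp only [Pi.add_apply, mul_add, Finset.sum_add_distrib]
  push_cast
  ring

theorem chr_zero_left (x : Fin d → ℝ) : chr 0 x = 1 := by simp [chr]
theorem chr_zero_right (x : Fin d → ℝ) : chr x 0 = 1 := by simp [chr]

theorem chr_neg_right (b x : Fin d → ℝ) : chr b (-x) * chr b x = 1 := by
  rw [← chr_add_right, neg_add_cancel, chr_zero_right]

theorem continuous_chr (b : Fin d → ℝ) : Continuous (chr b) := by
  unfold chr
  fun_prop

theorem mp_sub (a : Fin d → ℝ) : MeasurePreserving (fun x : Fin d → ℝ => x - a) volume volume :=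
  measurePreserving_sub_right volume a

theorem memLp_shift (a b : Fin d → ℝ) {f : (Fin d → ℝ) → ℂ} (hf : MemLp f 2 volume) :
    MemLp (fun x => chr b x * f (x - a)) 2 volume := by
  have h1 : MemLp (fun x => f (x - a)) 2 volume := hf.comp_measurePreserving (mp_sub a)
  have h2 : AEStronglyMeasurable (fun x => chr b x * f (x - a)) volume :=
    (continuous_chr b).aestronglyMeasurable.mul h1.1
  refine h1.congr_norm h2 (Eventually.of_forall fun x => ?_)
  rw [norm_mul, norm_chr, one_mul]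

theorem coe_shift (a : Fin d → ℝ) {f g : (Fin d → ℝ) → ℂ} (h : f =ᵐ[volume] g) (b : Fin d → ℝ) :
    (fun x => chr b x * f (x - a)) =ᵐ[volume] fun x => chr b x * g (x - a) := by
  have := (mp_sub a).quasiMeasurePreserving.ae_eq_comp h
  filter_upwards [this] with x hx
  simp only [Function.comp] at hx
  rw [hx]

/-- the time-frequency shift as a linear isometry -/
noncomputable def W₀ (a b : Fin d → ℝ) : HL d →ₗᵢ[ℂ] HL d where
  toFun f := (memLp_shift a b (Lp.memLp f)).toLp _
  map_add' f g := by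
    ext1
    refine (MemLp.coeFn_toLp _).trans ?_
    refine (coe_shift a (Lp.coeFn_add f g) b).trans ?_
    refine EventuallyEq.trans ?_ (Lp.coeFn_add _ _).symm
    filter_upwards [MemLp.coeFn_toLp (memLp_shift a b (Lp.memLp f)),
      MemLp.coeFn_toLp (memLp_shift a b (Lp.memLp g))] with x h1 h2
    rw [Pi.add_apply, Pi.add_apply, h1, h2]
    ring
  map_smul' c f := by
    ext1
    refine (MemLp.coeFn_toLp _).trans ?_
    refine (coe_shift a (Lp.coeFn_smul c f) b).trans ?_
    refine EventuallyEq.trans ?_ (Lp.coeFn_smul _ _).symm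
    filter_upwards [MemLp.coeFn_toLp (memLp_shift a b (Lp.memLp f))] with x h1
    simp only [Pi.smul_apply, RingHom.id_apply, smul_eq_mul] at *
    rw [h1]
    ring
  norm_map' f := by
    change ‖(memLp_shift a b (Lp.memLp f)).toLp _‖ = ‖f‖
    rw [Lp.norm_toLp, Lp.norm_def]
    congr 1
    have h1 : eLpNorm (fun x => chr b x * f (x - a)) 2 volume =
        eLpNorm (fun x => f (x - a)) 2 volume := by
      refine eLpNorm_congr_norm_ae (Eventually.of_forall fun x => ?_)
      rw [norm_mul, norm_chr, one_mul]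
    rw [h1]
    exact eLpNorm_comp_measurePreserving (Lp.memLp f).1 (mp_sub a)

theorem coeFn_W₀ (a b : Fin d → ℝ) (f : HL d) :
    (W₀ a b f : (Fin d → ℝ) → ℂ) =ᵐ[volume] fun x => chr b x * f (x - a) :=
  MemLp.coeFn_toLp (memLp_shift a b (Lp.memLp f))

theorem W₀_comp (a b a' b' : Fin d → ℝ) (f : HL d) :
    W₀ a b (W₀ a' b' f) = chr b' (-a) • W₀ (a + a') (b + b') f := by
  ext1
  refine (coeFn_W₀ a b _).trans ?_
  refine (coe_shift a (coeFn_W₀ a' b' f) b).trans ?_
  refine EventuallyEq.trans ?_ (Lp.coeFn_smul _ _).symm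
  filter_upwards [coeFn_W₀ (a + a') (b + b') f] with x h1
  rw [Pi.smul_apply, h1, smul_eq_mul, chr_add_left, sub_eq_add_neg x a, chr_add_right,
    ← sub_eq_add_neg, sub_sub]
  ring

theorem W₀_zero (f : HL d) : W₀ 0 0 f = f := by
  ext1
  refine (coeFn_W₀ 0 0 f).trans ?_
  filter_upwards with x
  rw [chr_zero_left, sub_zero, one_mul]

/-- the time-frequency shift as a unitary operator -/
noncomputable def W (a b : Fin d → ℝ) : HL d ≃ₗᵢ[ℂ] HL d :=
  LinearIsometryEquiv.ofSurjective (W₀ a b) (by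
    intro y
    refine ⟨chr b (-a) • W₀ (-a) (-b) y, ?_⟩
    rw [map_smul, W₀_comp, smul_smul, add_neg_cancel, add_neg_cancel, W₀_zero]
    have : chr b (-a) * chr (-b) (-a) = 1 := by
      rw [← chr_add_left, add_neg_cancel, chr_zero_left]
    rw [this, one_smul])

theorem W_apply (a b : Fin d → ℝ) (f : HL d) : W a b f = W₀ a b f := rfl

theorem coeFn_W (a b : Fin d → ℝ) (f : HL d) :
    (W a b f : (Fin d → ℝ) → ℂ) =ᵐ[volume] fun x => chr b x * f (x - a) := coeFn_W₀ a b f

theorem W_comp (a b a' b' : Fin d → ℝ) (f : HL d) :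
    W a b (W a' b' f) = chr b' (-a) • W (a + a') (b + b') f := W₀_comp a b a' b' f

theorem W_zero (f : HL d) : W 0 0 f = f := W₀_zero f

theorem W_symm_left (a : Fin d → ℝ) (f : HL d) : (W a 0).symm f = W (-a) 0 f := by
  rw [LinearIsometryEquiv.symm_apply_eq, W_comp, chr_zero_left, one_smul, add_neg_cancel,
    add_zero, W_zero]

theorem W_symm_right (b : Fin d → ℝ) (f : HL d) : (W 0 b).symm f = W 0 (-b) f := by
  rw [LinearIsometryEquiv.symm_apply_eq, W_comp, neg_zero, chr_zero_right, one_smul,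
    add_neg_cancel, add_zero, W_zero]

/-- inner product as an integral -/
theorem inner_eq (f g : HL d) :
    (inner ℂ f g : ℂ) = ∫ x, (starRingEnd ℂ) (f x) * g x := by
  rw [L2.inner_def]
  simp only [RCLike.inner_apply']

theorem norm_sq_eq (f : HL d) : ‖f‖ ^ 2 = ∫ x, ‖f x‖ ^ 2 := by
  have h : ((‖f‖ ^ 2 : ℝ) : ℂ) = ((∫ x, ‖f x‖ ^ 2 : ℝ) : ℂ) := by
    have h1 := inner_self_eq_norm_sq_to_K (𝕜 := ℂ) f
    rw [inner_eq] at h1
    rw [← integral_complex_ofReal]
    push_cast
    have h2 : ((‖f‖ : ℂ)) ^ 2 = ∫ x, (starRingEnd ℂ) (f x) * f x := h1.symm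
    rw [h2]
    refine integral_congr_ae (Eventually.of_forall fun x => ?_)
    simp only
    rw [mul_comm, Complex.mul_conj, Complex.normSq_eq_norm_sq]
    push_cast
    rfl
  exact_mod_cast h

end Pool.Agent.R243.BLT
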