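import Mathlib
import Pool.Agent.R243.BLT.Weyl

set_option autoImplicit false

/-!
# Regularity of the window: modulations and translations
-/

namespace Pool.Agent.R243.BLT

open scoped ENNReal NNReal ComplexConjugate ContDiff Convolution
open Filter Topology MeasureTheory

variable {d : ℕ}

theorem chr_single (j : Fin d) (t : ℝ) (x : Fin d → ℝ) :
    chr (Pi.single j t) x = Complex.exp ((t * (2 * Real.pi * x j) : ℝ) * Complex.I) := by
  unfold chr
  congr 1
  have : ∑ i, (Pi.single j t : Fin d → ℝ) i * x i = t * x j := by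
    rw [Finset.sum_eq_single j]
    · simp
    · intro i _ hi
      simp [Pi.single_eq_of_ne hi]
    · simp
  rw [this]
  push_cast
  ring

/-- a norm in `L²` tends to zero by dominated convergence -/
theorem tendsto_norm_zero {l : Filter ℝ} [l.IsCountablyGenerated] (F : ℝ → HL d)
    (f : ℝ → (Fin d → ℝ) → ℂ)
    (hF : ∀ t, (F t : (Fin d → ℝ) → ℂ) =ᵐ[volume] f t) (b : (Fin d → ℝ) → ℝ) (hb : Integrable b)
    (hle : ∀ᶠ t in l, ∀ᵐ x, ‖f t x‖ ^ 2 ≤ b x)
    (hlim : ∀ᵐ x, Tendsto (fun t => f t x) l (𝓝 0)) : Tendsto (fun t => ‖F t‖) l (𝓝 0) := by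
  have h0 : ∀ t, ∫ x, ‖F t x‖ ^ 2 = ∫ x, ‖f t x‖ ^ 2 := by
    intro t
    refine integral_congr_ae ?_
    filter_upwards [hF t] with x hx
    rw [hx]
  have h1 : Tendsto (fun t => ∫ x, ‖f t x‖ ^ 2) l (𝓝 (∫ _ : Fin d → ℝ, (0 : ℝ))) := by
    refine tendsto_integral_filter_of_dominated_convergence b
      (Eventually.of_forall fun t => ?_) ?_ hb ?_
    · exact (((Lp.memLp (F t)).1.congr (hF t)).norm.pow 2)
    · filter_upwards [hle] with t ht
      filter_upwards [ht] with x hx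
      rw [Real.norm_of_nonneg (by positivity)]
      exact hx
    · filter_upwards [hlim] with x hx
      have := (hx.norm).pow 2
      simpa using this
  have h2 : Tendsto (fun t => ‖F t‖ ^ 2) l (𝓝 0) := by
    simp only [integral_zero] at h1
    refine h1.congr fun t => ?_
    rw [norm_sq_eq, h0]
  have h3 := (Real.continuous_sqrt.tendsto 0).comp h2
  rw [Real.sqrt_zero] at h3
  refine h3.congr fun t => ?_
  simp [Real.sqrt_sq (norm_nonneg _)]

theorem memLp_coord {g : (Fin d → ℝ) → ℂ} (hg : MemLp g 2 volume)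
    (hX : Integrable (fun x : Fin d → ℝ => (∑ j, x j ^ 2) * ‖g x‖ ^ 2) volume) (j : Fin d) :
    MemLp (fun x => (2 * Real.pi * x j : ℝ) * Complex.I * g x) 2 volume := by
  have hm : AEStronglyMeasurable (fun x : Fin d → ℝ => ((2 * Real.pi * x j : ℝ) : ℂ) * Complex.I * g x)
      volume := by
    refine AEStronglyMeasurable.mul ?_ hg.1
    refine Continuous.aestronglyMeasurable ?_
    fun_prop
  rw [memLp_two_iff_integrable_sq_norm hm]
  refine Integrable.mono' (hX.const_mul ((2 * Real.pi) ^ 2)) (hm.norm.pow 2)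
    (Eventually.of_forall fun x => ?_)
  rw [Real.norm_of_nonneg (by positivity), norm_mul, norm_mul, Complex.norm_I, mul_one,
    Complex.norm_real, mul_pow, Real.norm_eq_abs, sq_abs, mul_pow, mul_assoc]
  apply mul_le_mul_of_nonneg_left _ (by positivity)
  apply mul_le_mul_of_nonneg_right _ (by positivity)
  exact Finset.single_le_sum (f := fun j => x j ^ 2) (fun i _ => sq_nonneg _) (Finset.mem_univ j)

/-- modulations: strong derivative -/
theorem modulation_deriv {g : (Fin d → ℝ) → ℂ} (hg : MemLp g 2 volume)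
    (hX : Integrable (fun x : Fin d → ℝ => (∑ j, x j ^ 2) * ‖g x‖ ^ 2) volume) (j : Fin d) :
    Tendsto (fun t : ℝ => ((t : ℂ)⁻¹) • (W 0 (Pi.single j t) (hg.toLp g) - hg.toLp g)) (𝓝[≠] 0)
      (𝓝 ((memLp_coord hg hX j).toLp _)) := by
  rw [tendsto_iff_norm_sub_tendsto_zero]
  set f : ℝ → (Fin d → ℝ) → ℂ := fun t x =>
    ((t : ℂ)⁻¹ * (Complex.exp ((t * (2 * Real.pi * x j) : ℝ) * Complex.I) - 1) -
      (2 * Real.pi * x j : ℝ) * Complex.I) * g x with hf
  have hθ : ∀ t θ : ℝ, ‖Complex.exp ((t * θ : ℝ) * Complex.I) - 1‖ ≤ |t| * |θ| := by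
    intro t θ
    have := Real.norm_exp_I_mul_ofReal_sub_one_le (x := t * θ)
    rw [mul_comm]
    calc ‖Complex.exp (Complex.I * ((t * θ : ℝ) : ℂ)) - 1‖ ≤ ‖t * θ‖ := this
      _ = _ := by rw [norm_mul, Real.norm_eq_abs, Real.norm_eq_abs]
  refine tendsto_norm_zero _ f (fun t => ?_) (fun x => 4 * (2 * Real.pi) ^ 2 *
    ((∑ j, x j ^ 2) * ‖g x‖ ^ 2)) (hX.const_mul _) ?_ ?_
  · refine (Lp.coeFn_sub _ _).trans ?_
    filter_upwards [Lp.coeFn_smul ((t : ℂ)⁻¹) (W 0 (Pi.single j t) (hg.toLp g) - hg.toLp g),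
      Lp.coeFn_sub (W 0 (Pi.single j t) (hg.toLp g)) (hg.toLp g),
      coeFn_W 0 (Pi.single j t) (hg.toLp g), hg.coeFn_toLp,
      (memLp_coord hg hX j).coeFn_toLp] with x h1 h2 h3 h4 h5
    rw [Pi.sub_apply, h1, Pi.smul_apply, h2, Pi.sub_apply, h3, h5, sub_zero, h4, chr_single, hf]
    simp only [smul_eq_mul]
    ring
  · filter_upwards [self_mem_nhdsWithin] with t ht
    filter_upwards with x
    have ht' : (t : ℝ) ≠ 0 := ht
    rw [hf]
    simp only
    rw [norm_mul, mul_pow]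
    have h1 : ‖((t : ℂ)⁻¹ * (Complex.exp ((t * (2 * Real.pi * x j) : ℝ) * Complex.I) - 1) -
      (2 * Real.pi * x j : ℝ) * Complex.I)‖ ≤ 2 * |2 * Real.pi * x j| := by
      refine (norm_sub_le _ _).trans ?_
      rw [norm_mul, norm_mul, Complex.norm_I, mul_one, Complex.norm_real, norm_inv,
        Complex.norm_real, Real.norm_eq_abs, Real.norm_eq_abs]
      have h2 := hθ t (2 * Real.pi * x j)
      have h3 : |t|⁻¹ * ‖Complex.exp ((t * (2 * Real.pi * x j) : ℝ) * Complex.I) - 1‖ ≤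
          |2 * Real.pi * x j| := by
        rw [inv_mul_le_iff₀ (abs_pos.2 ht')]
        exact h2
      linarith
    have h4 : ‖((t : ℂ)⁻¹ * (Complex.exp ((t * (2 * Real.pi * x j) : ℝ) * Complex.I) - 1) -
      (2 * Real.pi * x j : ℝ) * Complex.I)‖ ^ 2 ≤ 4 * (2 * Real.pi) ^ 2 * x j ^ 2 := by
      calc _ ≤ (2 * |2 * Real.pi * x j|) ^ 2 := pow_le_pow_left₀ (norm_nonneg _) h1 2
        _ = _ := by rw [mul_pow, sq_abs]; ring
    calc _ ≤ 4 * (2 * Real.pi) ^ 2 * x j ^ 2 * ‖g x‖ ^ 2 :=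
          mul_le_mul_of_nonneg_right h4 (by positivity)
      _ ≤ 4 * (2 * Real.pi) ^ 2 * (∑ j, x j ^ 2) * ‖g x‖ ^ 2 := by
          gcongr
          exact Finset.single_le_sum (f := fun j => x j ^ 2) (fun i _ => sq_nonneg _)
            (Finset.mem_univ j)
      _ = _ := by ring
  · filter_upwards with x
    have h1 : HasDerivAt (fun t : ℝ => Complex.exp ((t * (2 * Real.pi * x j) : ℝ) * Complex.I))
        ((2 * Real.pi * x j : ℝ) * Complex.I) 0 := by
      have h2 : HasDerivAt (fun t : ℝ => ((t * (2 * Real.pi * x j) : ℝ) : ℂ) * Complex.I)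
          ((2 * Real.pi * x j : ℝ) * Complex.I) 0 := by
        have h3 : HasDerivAt (fun t : ℝ => t * (2 * Real.pi * x j)) (2 * Real.pi * x j) 0 := by
          simpa using (hasDerivAt_id (0:ℝ)).mul_const (2 * Real.pi * x j)
        exact (h3.ofReal_comp).mul_const Complex.I
      have h4 := h2.cexp
      simpa using h4
    rw [hasDerivAt_iff_tendsto_slope] at h1
    have h5 : Tendsto (fun t : ℝ => ((t : ℂ)⁻¹ *
        (Complex.exp ((t * (2 * Real.pi * x j) : ℝ) * Complex.I) - 1) -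
        (2 * Real.pi * x j : ℝ) * Complex.I)) (𝓝[≠] 0) (𝓝 0) := by
      have h6 := h1.sub_const (((2 * Real.pi * x j : ℝ) : ℂ) * Complex.I)
      rw [sub_self] at h6
      refine h6.congr fun t => ?_
      rw [slope_def_module]
      simp [Complex.real_smul]
    have h7 := h5.mul_const (g x)
    rw [zero_mul] at h7
    exact h7

theorem precomp_aux {g ψ : (Fin d → ℝ) → ℂ} (hgl : LocallyIntegrable g volume)
    (hc : HasCompactSupport (fderiv ℝ ψ)) (hψs : Continuous (fderiv ℝ ψ)) (x v : Fin d → ℝ) :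
    (g ⋆[ContinuousLinearMap.precompR (Fin d → ℝ) (ContinuousLinearMap.mul ℝ ℂ), volume] fderiv ℝ ψ)
      x v = ∫ t, g t * (fderiv ℝ ψ (x - t) v) := by
  have := convolution_precompR_apply (μ := volume) (ContinuousLinearMap.mul ℝ ℂ) hgl hc hψs x v
  rw [this]
  rfl

theorem cd_aux {φ : (Fin d → ℝ) → ℂ} (hφ : ContDiff ℝ ((⊤ : ℕ∞) : WithTop ℕ∞) φ) (v : Fin d → ℝ) :
    ContDiff ℝ ((⊤ : ℕ∞) : WithTop ℕ∞) (fun x => φ (x + v)) :=
  hφ.comp (contDiff_id.add contDiff_const)

theorem hcs_aux {φ : (Fin d → ℝ) → ℂ} (hc : HasCompactSupport φ) (v : Fin d → ℝ) :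
    HasCompactSupport (fun x => φ (x + v)) :=
  hc.comp_homeomorph (Homeomorph.addRight v)

/-- translates of test functions, as a function of the translation parameter -/
theorem test_deriv {g : (Fin d → ℝ) → ℂ} (hg : MemLp g 2 volume) {h : (Fin d → ℝ) → ℂ}
    (j : Fin d)
    (hw : ∀ φ : (Fin d → ℝ) → ℂ, ContDiff ℝ ((⊤ : ℕ∞) : WithTop ℕ∞) φ → HasCompactSupport φ →
         ∫ x, g x * fderiv ℝ φ x (Pi.single j (1 : ℝ) : Fin d → ℝ) = - ∫ x, h x * φ x)
    (φ : (Fin d → ℝ) → ℂ) (hφ : ContDiff ℝ ((⊤ : ℕ∞) : WithTop ℕ∞) φ) (hc : HasCompactSupport φ)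
    (t : ℝ) :
    HasDerivAt (fun t : ℝ => ∫ x, g x * φ (x + Pi.single j t))
      (- ∫ x, h x * φ (x + Pi.single j t)) t := by
  set ψ : (Fin d → ℝ) → ℂ := fun y => φ (-y) with hψ
  have hψs : ContDiff ℝ ((⊤ : ℕ∞) : WithTop ℕ∞) ψ := hφ.comp contDiff_neg
  have hψc : HasCompactSupport ψ := hc.comp_homeomorph (Homeomorph.neg (Fin d → ℝ))
  have hgl : LocallyIntegrable g volume := hg.locallyIntegrable (by norm_num)
  have h1 := hψc.hasFDerivAt_convolution_right (ContinuousLinearMap.mul ℝ ℂ) hgl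
    (hψs.of_le (by exact_mod_cast le_top)) (Pi.single j (-t))
  have h2 : HasDerivAt (fun t : ℝ => (Pi.single j (-t) : Fin d → ℝ)) (Pi.single j (-1)) t := by
    rw [hasDerivAt_pi]
    intro i
    by_cases hi : i = j
    · subst hi
      simpa using hasDerivAt_neg t
    · simp only [Pi.single_eq_of_ne hi]
      exact hasDerivAt_const _ _
  have h3 := h1.comp_hasDerivAt t h2
  have e1 : (fun t : ℝ => ∫ x, g x * φ (x + Pi.single j t)) =
      (fun x => (g ⋆[ContinuousLinearMap.mul ℝ ℂ, volume] ψ) x) ∘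
        fun t : ℝ => (Pi.single j (-t) : Fin d → ℝ) := by
    ext t
    simp only [Function.comp, convolution, ContinuousLinearMap.mul_apply', hψ]
    congr 1
    ext x
    congr 2
    rw [neg_sub]
    ext i
    by_cases hi : i = j
    · subst hi; simp
    · simp [hi]
  rw [e1]
  refine h3.congr_deriv ?_
  have hφt := cd_aux hφ (Pi.single j t)
  have hct := hcs_aux hc (Pi.single j t)
  have hcf : Continuous (fderiv ℝ ψ) := hψs.continuous_fderiv (by simp)
  have hcs : HasCompactSupport (fderiv ℝ ψ) := hψc.fderiv ℝ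
  refine (precomp_aux hgl hcs hcf _ _).trans ?_
  refine Eq.trans ?_ (hw _ hφt hct)
  refine integral_congr_ae (Eventually.of_forall fun x => ?_)
  simp only
  congr 1
  have e2 : fderiv ℝ (fun x => φ (x + Pi.single j t)) x = fderiv ℝ φ (x + Pi.single j t) :=
    fderiv_comp_add_right _
  have e3 : fderiv ℝ ψ (Pi.single j (-t) - x) = - fderiv ℝ φ (-(Pi.single j (-t) - x)) := by
    have hd : HasFDerivAt φ (fderiv ℝ φ (-(Pi.single j (-t) - x))) (-(Pi.single j (-t) - x)) :=
      (hφ.differentiable (by simp)).differentiableAt.hasFDerivAt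
    have hn : HasFDerivAt (fun y : Fin d → ℝ => -y) (-ContinuousLinearMap.id ℝ (Fin d → ℝ))
        (Pi.single j (-t) - x) := (hasFDerivAt_id _).neg
    have := (hd.comp (Pi.single j (-t) - x) hn).fderiv
    rw [show ψ = φ ∘ fun y : Fin d → ℝ => -y from rfl, this]
    ext v
    simp
  rw [e2, e3]
  have e4 : -(Pi.single j (-t) - x) = x + Pi.single j t := by
    ext i
    by_cases hi : i = j
    · subst hi; simp
    · simp [hi]
  rw [e4]
  have e5 : (Pi.single j (-1 : ℝ) : Fin d → ℝ) = - Pi.single j 1 := by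
    ext i
    by_cases hi : i = j
    · subst hi; simp
    · simp [hi]
  rw [e5]
  simp

end Pool.Agent.R243.BLT
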