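import Mathlib
import Pool.Agent.R243.BLT.Deriv

set_option autoImplicit false

/-!
# Regularity of the window: translations
-/

namespace Pool.Agent.R243.BLT

open scoped ENNReal NNReal ComplexConjugate ContDiff
open Filter Topology MeasureTheory

variable {d : ℕ}

theorem inner_shift {k : (Fin d → ℝ) → ℂ} (hk : MemLp k 2 volume) (ψ : HL d)
    (φ₀ : (Fin d → ℝ) → ℂ) (hψ : (ψ : (Fin d → ℝ) → ℂ) =ᵐ[volume] φ₀) (v : Fin d → ℝ) :
    (inner ℂ (W (-v) 0 ψ) (hk.toLp k) : ℂ) = ∫ x, k x * (starRingEnd ℂ) (φ₀ (x + v)) := by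
  rw [inner_eq]
  refine integral_congr_ae ?_
  filter_upwards [coeFn_W (-v) 0 ψ, coe_shift (-v) hψ 0, hk.coeFn_toLp] with x h1 h2 h3
  rw [h1, h2, h3, chr_zero_left, one_mul, sub_neg_eq_add, mul_comm]

/-- translations: Lipschitz bound from the weak derivative -/
theorem trans_bound {g h : (Fin d → ℝ) → ℂ} (hg : MemLp g 2 volume) (hh : MemLp h 2 volume)
    (j : Fin d)
    (hw : ∀ φ : (Fin d → ℝ) → ℂ, ContDiff ℝ ((⊤ : ℕ∞) : WithTop ℕ∞) φ → HasCompactSupport φ →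
         ∫ x, g x * fderiv ℝ φ x (Pi.single j (1 : ℝ) : Fin d → ℝ) = - ∫ x, h x * φ x) (t : ℝ) :
    ‖W (-(Pi.single j t)) 0 (hg.toLp g) - hg.toLp g‖ ≤ ‖hh.toLp h‖ * |t| := by
  set Gg : HL d := hg.toLp g with hG
  set F : HL d := W (-(Pi.single j t)) 0 Gg - Gg with hF
  have claim : ∀ ψ : HL d, ‖(inner ℂ ψ F : ℂ)‖ ≤ ‖hh.toLp h‖ * |t| * ‖ψ‖ := by
    have hdense : Dense {f : HL d | ∃ (g : (Fin d → ℝ) → ℂ), f =ᵐ[volume] g ∧
        HasCompactSupport g ∧ ContDiff ℝ ∞ g} :=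
      MeasureTheory.Lp.dense_hasCompactSupport_contDiff (by norm_num)
    intro ψ
    refine hdense.induction (P := fun ψ => ‖(inner ℂ ψ F : ℂ)‖ ≤ ‖hh.toLp h‖ * |t| * ‖ψ‖) ?_ ?_ ψ
    · rintro ψ ⟨φ₀, hψ, hc, hs⟩
      set φ : (Fin d → ℝ) → ℂ := fun x => (starRingEnd ℂ) (φ₀ x) with hφ
      have hφs : ContDiff ℝ ((⊤ : ℕ∞) : WithTop ℕ∞) φ := Complex.conjCLE.contDiff.comp hs
      have hφc : HasCompactSupport φ := hc.comp_left (g := starRingEnd ℂ) (map_zero _)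
      have h1 : ∀ s : ℝ, (inner ℂ (W (-(Pi.single j s)) 0 ψ) Gg : ℂ) =
          ∫ x, g x * φ (x + Pi.single j s) := fun s => inner_shift hg ψ φ₀ hψ _
      have h2 : ∀ s : ℝ, (inner ℂ (W (-(Pi.single j s)) 0 ψ) (hh.toLp h) : ℂ) =
          ∫ x, h x * φ (x + Pi.single j s) := fun s => inner_shift hh ψ φ₀ hψ _
      have hder : ∀ s : ℝ, HasDerivAt (fun s : ℝ => (inner ℂ (W (-(Pi.single j s)) 0 ψ) Gg : ℂ))
          (-(inner ℂ (W (-(Pi.single j s)) 0 ψ) (hh.toLp h) : ℂ)) s := by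
        intro s
        have := test_deriv hg j hw φ hφs hφc s
        rw [h2 s]
        refine this.congr_of_eventuallyEq (Eventually.of_forall fun u => h1 u)
      have hbd : ∀ s : ℝ, ‖-(inner ℂ (W (-(Pi.single j s)) 0 ψ) (hh.toLp h) : ℂ)‖ ≤
          ‖ψ‖ * ‖hh.toLp h‖ := by
        intro s
        rw [norm_neg]
        refine (norm_inner_le_norm _ _).trans ?_
        rw [LinearIsometryEquiv.norm_map]
      have hmv := Convex.norm_image_sub_le_of_norm_hasDerivWithin_le (s := Set.univ)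
        (f := fun s : ℝ => (inner ℂ (W (-(Pi.single j s)) 0 ψ) Gg : ℂ))
        (fun s _ => (hder s).hasDerivWithinAt) (fun s _ => hbd s) convex_univ
        (Set.mem_univ (0:ℝ)) (Set.mem_univ (-t))
      have e0 : W (-(Pi.single j (0:ℝ))) 0 ψ = ψ := by
        rw [Pi.single_zero, neg_zero, W_zero]
      have e1 : (inner ℂ ψ F : ℂ) = inner ℂ (W (-(Pi.single j (-t))) 0 ψ) Gg -
          inner ℂ (W (-(Pi.single j (0:ℝ))) 0 ψ) Gg := by
        rw [e0, hF, inner_sub_right]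
        congr 1
        have := LinearIsometryEquiv.inner_map_map (W (Pi.single j t) 0) ψ
          ((W (Pi.single j t) 0).symm Gg)
        rw [LinearIsometryEquiv.apply_symm_apply, W_symm_left] at this
        rw [← this]
        congr 3
        ext i
        by_cases hi : i = j
        · subst hi; simp
        · simp [hi]
      rw [e1]
      refine hmv.trans (le_of_eq ?_)
      rw [sub_zero, norm_neg, Real.norm_eq_abs]
      ring
    · exact isClosed_le (by fun_prop) (by fun_prop)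
  have h1 := claim F
  rw [inner_self_eq_norm_sq_to_K] at h1
  have h2 : ‖((‖F‖ : ℂ)) ^ 2‖ = ‖F‖ ^ 2 := by
    rw [norm_pow, Complex.norm_real, norm_norm]
  have h3 : ‖F‖ ^ 2 ≤ ‖hh.toLp h‖ * |t| * ‖F‖ := by
    rw [← h2]; exact h1
  rcases (norm_nonneg F).eq_or_lt with h0 | h0
  · rw [← h0]; positivity
  · have : ‖F‖ * ‖F‖ ≤ (‖hh.toLp h‖ * |t|) * ‖F‖ := by nlinarith
    exact le_of_mul_le_mul_right this h0

end Pool.Agent.R243.BLT
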