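import Mathlib
import Pool.Agent.R243.BLT.Trans
import Pool.Agent.R243.BLT.Core

set_option autoImplicit false

/-!
# Balian-Low theorem for arbitrary lattices
-/

namespace Pool.Agent.R243.BLT

open scoped ENNReal NNReal ComplexConjugate ContDiff
open Filter Topology MeasureTheory

variable {d : ℕ}

theorem main (M : Matrix (Fin d ⊕ Fin d) (Fin d ⊕ Fin d) ℝ)
    (g : (Fin d → ℝ) → ℂ) (hg : MemLp g 2 volume)
    (a b : (Fin d ⊕ Fin d → ℤ) → (Fin d → ℝ))
    (ha : ∀ k, a k = fun j => Matrix.mulVec M (fun i => ((k i : ℤ) : ℝ)) (Sum.inl j))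
    (hb : ∀ k, b k = fun j => Matrix.mulVec M (fun i => ((k i : ℤ) : ℝ)) (Sum.inr j))
    (hcomp : ∀ h : (Fin d → ℝ) → ℂ, MemLp h 2 volume →
      (∀ k : Fin d ⊕ Fin d → ℤ,
        ∫ x, (starRingEnd ℂ) (h x) * (chr (b k) x * g (x - a k)) = 0) → h =ᵐ[volume] 0)
    (A B : ℝ) (hA : 0 < A) (hB : 0 < B)
    (hR : ∀ (s : Finset (Fin d ⊕ Fin d → ℤ)) (c : (Fin d ⊕ Fin d → ℤ) → ℂ),
        A * ∑ k ∈ s, ‖c k‖ ^ 2 ≤
          ∫ x, ‖∑ k ∈ s, c k * (chr (b k) x * g (x - a k))‖ ^ 2 ∧
        ∫ x, ‖∑ k ∈ s, c k * (chr (b k) x * g (x - a k))‖ ^ 2 ≤ B * ∑ k ∈ s, ‖c k‖ ^ 2)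
    (hX : Integrable (fun x : Fin d → ℝ => (∑ j, x j ^ 2) * ‖g x‖ ^ 2) volume)
    (j : Fin d) (h : (Fin d → ℝ) → ℂ) (hh : MemLp h 2 volume)
    (hw : ∀ φ : (Fin d → ℝ) → ℂ, ContDiff ℝ ((⊤ : ℕ∞) : WithTop ℕ∞) φ → HasCompactSupport φ →
         ∫ x, g x * fderiv ℝ φ x (Pi.single j (1 : ℝ) : Fin d → ℝ) = - ∫ x, h x * φ x) : False := by
  have ha0 : a 0 = 0 := by rw [ha]; ext i; simp [Matrix.mulVec, dotProduct]
  have hb0 : b 0 = 0 := by rw [hb]; ext i; simp [Matrix.mulVec, dotProduct]
  have hadd : ∀ k l, a (k + l) = a k + a l := by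
    intro k l
    rw [ha, ha, ha]
    ext i
    simp only [Matrix.mulVec, dotProduct, Pi.add_apply, Int.cast_add, mul_add,
      Finset.sum_add_distrib]
  have hbdd : ∀ k l, b (k + l) = b k + b l := by
    intro k l
    rw [hb, hb, hb]
    ext i
    simp only [Matrix.mulVec, dotProduct, Pi.add_apply, Int.cast_add, mul_add,
      Finset.sum_add_distrib]
  have hUg : ∀ k, (W (a k) (b k) (hg.toLp g) : (Fin d → ℝ) → ℂ) =ᵐ[volume]
      fun x => chr (b k) x * g (x - a k) := fun k =>
    (coeFn_W (a k) (b k) _).trans (coe_shift (a k) hg.coeFn_toLp (b k))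
  have hsum : ∀ (s : Finset (Fin d ⊕ Fin d → ℤ)) (c : (Fin d ⊕ Fin d → ℤ) → ℂ),
      ‖∑ k ∈ s, c k • W (a k) (b k) (hg.toLp g)‖ ^ 2 =
        ∫ x, ‖∑ k ∈ s, c k * (chr (b k) x * g (x - a k))‖ ^ 2 := by
    intro s c
    rw [norm_sq_eq]
    refine integral_congr_ae ?_
    have h1 : ((∑ k ∈ s, c k • W (a k) (b k) (hg.toLp g) : HL d) : (Fin d → ℝ) → ℂ) =ᵐ[volume]
        fun x => ∑ k ∈ s, c k * (chr (b k) x * g (x - a k)) := by
      classical
      induction s using Finset.induction_on with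
      | empty =>
        simp only [Finset.sum_empty]
        filter_upwards [Lp.coeFn_zero ℂ 2 (volume : Measure (Fin d → ℝ))] with x hx
        rw [hx]; rfl
      | insert k s hk ih =>
        rw [Finset.sum_insert hk]
        filter_upwards [Lp.coeFn_add (c k • W (a k) (b k) (hg.toLp g))
          (∑ k ∈ s, c k • W (a k) (b k) (hg.toLp g)), ih,
          Lp.coeFn_smul (c k) (W (a k) (b k) (hg.toLp g)), hUg k] with x h1 h2 h3 h4
        rw [h1, Pi.add_apply, h2, h3, Pi.smul_apply, h4, Finset.sum_insert hk, smul_eq_mul]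
    filter_upwards [h1] with x hx
    rw [hx]
  have hexp : ∀ t : ℝ, ∀ v : Fin d → ℝ, chr v (Pi.single j t) =
      Complex.exp ((t * (2 * Real.pi * v j) : ℝ) * Complex.I) := by
    intro t v
    rw [← chr_single]
    unfold chr
    congr 3
    refine Finset.sum_congr rfl fun i _ => mul_comm _ _
  have hexpl : ∀ r : ℝ, Tendsto (fun t : ℝ => Complex.exp ((t * r : ℝ) * Complex.I)) (𝓝[≠] 0)
      (𝓝 1) := by
    intro r
    have h1 : Continuous (fun t : ℝ => Complex.exp ((t * r : ℝ) * Complex.I)) := by fun_prop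
    have h2 := h1.tendsto 0
    simp only [zero_mul, Complex.ofReal_zero, Complex.exp_zero] at h2
    exact h2.mono_left nhdsWithin_le_nhds
  have hcc : ∀ v x : Fin d → ℝ, (starRingEnd ℂ) (chr v x) * chr v x = 1 := by
    intro v x
    rw [mul_comm, Complex.mul_conj, Complex.normSq_eq_norm_sq, norm_chr]
    norm_num
  refine core (H := HL d) (G := Fin d ⊕ Fin d → ℤ) (fun k => W (a k) (b k))
    (fun k l => chr (b l) (-(a k))) (fun k l => norm_chr _ _) (fun k => by simp [hb0, chr_zero_left])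
    (fun k l x => by rw [W_comp, hadd, hbdd]) (fun x => by simp only [ha0, hb0, W_zero])
    (fun t => W 0 (Pi.single j t)) (fun t => W (Pi.single j t) 0)
    (fun t k => chr (Pi.single j t) (-(a k))) (fun t k => chr (b k) (Pi.single j t))
    (fun t k => norm_chr _ _) (fun t k => norm_chr _ _)
    (fun t => by simp [ha0, chr_zero_right]) (fun t => by simp [hb0, chr_zero_left])
    ?_ ?_ ?_ ?_ (fun t => chr (Pi.single j t) (Pi.single j t)) ?_
    (2 * Real.pi * Complex.I) ?_ ?_ (hg.toLp g) ((memLp_coord hg hX j).toLp _) ‖hh.toLp h‖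
    (modulation_deriv hg hX j) ?_ hA hB ?_ ?_
  · intro t k x
    rw [W_symm_right, W_symm_right, W_comp, W_comp, smul_smul]
    rw [neg_zero, chr_zero_right, one_smul, zero_add, add_zero]
    have : chr (Pi.single j t) (-(a k)) * chr (-Pi.single j t) (-(a k)) = 1 := by
      rw [← chr_add_left, add_neg_cancel, chr_zero_left]
    rw [this, one_smul, add_comm]
  · intro t k x
    rw [W_symm_left, W_symm_left, W_comp, W_comp, smul_smul]
    rw [neg_neg, chr_zero_left, mul_one, zero_add, add_zero, add_comm]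
  · intro k
    have : ∀ t : ℝ, chr (Pi.single j t) (-(a k)) =
        Complex.exp ((t * (2 * Real.pi * (-(a k)) j) : ℝ) * Complex.I) := fun t => chr_single j t _
    simp only [this]
    exact hexpl _
  · intro k
    simp only [hexp]
    exact hexpl _
  · intro t x
    rw [W_symm_left, W_symm_left, W_comp, W_comp, neg_neg, neg_zero, chr_zero_left, one_smul]
    simp
  · simp [Real.pi_ne_zero]
  · have e1 : ∀ t : ℝ, chr (Pi.single j t) (Pi.single j t) =
        Complex.exp (2 * Real.pi * Complex.I * (t : ℂ) ^ 2) := by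
      intro t
      rw [chr_single]
      congr 1
      simp
      ring
    simp only [e1]
    have h1 : HasDerivAt (fun z : ℂ => Complex.exp (2 * Real.pi * Complex.I * z))
        (2 * Real.pi * Complex.I) 0 := by
      have h2 : HasDerivAt (fun z : ℂ => 2 * Real.pi * Complex.I * z) (2 * Real.pi * Complex.I) 0 := by
        simpa using (hasDerivAt_id (0:ℂ)).const_mul (2 * Real.pi * Complex.I)
      simpa using h2.cexp
    rw [hasDerivAt_iff_tendsto_slope] at h1
    have h3 : Tendsto (fun t : ℝ => (t : ℂ) ^ 2) (𝓝[≠] 0) (𝓝[≠] 0) := by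
      rw [tendsto_nhdsWithin_iff]
      constructor
      · have : Continuous (fun t : ℝ => (t : ℂ) ^ 2) := by fun_prop
        have h4 := this.tendsto 0
        simp only [Complex.ofReal_zero] at h4
        norm_num at h4
        exact h4.mono_left nhdsWithin_le_nhds
      · filter_upwards [self_mem_nhdsWithin] with t ht
        have : t ≠ 0 := ht
        simp [this]
    have h5 := h1.comp h3
    refine h5.congr fun t => ?_
    simp only [Function.comp, slope_def_module]
    simp [div_eq_inv_mul]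
  · intro t
    rw [W_symm_left]
    exact trans_bound hg hh j hw t
  · intro s c
    rw [hsum]
    exact hR s c
  · intro f hf
    have h1 := hcomp f (Lp.memLp f) (fun k => by
      have := hf k
      rw [inner_eq] at this
      rw [← this]
      refine integral_congr_ae ?_
      filter_upwards [hUg k] with x hx
      rw [hx])
    ext1
    refine h1.trans ?_
    exact (Lp.coeFn_zero _ _ _).symm

end Pool.Agent.R243.BLT
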